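import Pool.Agent.helper17.LQ.SpecQ

/-!
# MP_07c750, project LQ, row QBM: the inequality of Bombieri for the pairs of dyadic intervals
-/

open MeasureTheory Set
open scoped ComplexConjugate

set_option autoImplicit false

namespace Pool.Agent.LP

noncomputable section

/-- positivity of the entrywise product of two Gram matrices -/
theorem QBM_pos {ι : Type} (μ ν : Measure ℝ) [IsFiniteMeasure μ] [IsFiniteMeasure ν] (s : Finset ι) (φ : ι → ℝ → ℂ)
    (a : ι → ℂ) (C : ℝ) (hm : ∀ i ∈ s, Measurable (φ i)) (hμ : ∀ i ∈ s, ∀ᵐ u ∂μ, ‖φ i u‖ ≤ C)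
    (hν : ∀ i ∈ s, ∀ᵐ u ∂ν, ‖φ i u‖ ≤ C) :
    0 ≤ (∑ i ∈ s, ∑ j ∈ s, a i * conj (a j) *
      ((∫ u, φ i u * conj (φ j u) ∂μ) * ∫ u, φ i u * conj (φ j u) ∂ν)).re := by
  have hint : ∀ (ρ : Measure ℝ) [IsFiniteMeasure ρ], (∀ i ∈ s, ∀ᵐ u ∂ρ, ‖φ i u‖ ≤ C) → ∀ i ∈ s, ∀ j ∈ s,
      Integrable (fun u => φ i u * conj (φ j u)) ρ := by
    intro ρ _ hρ i hi j hj
    refine Integrable.of_bound ?_ (C * C) ?_
    · exact ((hm i hi).mul ((Complex.continuous_conj.measurable).comp (hm j hj))).aestronglyMeasurable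
    · filter_upwards [hρ i hi, hρ j hj] with u h1 h2
      rw [norm_mul, RCLike.norm_conj]
      exact mul_le_mul h1 h2 (norm_nonneg _) ((norm_nonneg _).trans h1)
  have hprod : ∀ i ∈ s, ∀ j ∈ s, Integrable (fun p : ℝ × ℝ => a i * conj (a j) *
      ((φ i p.1 * conj (φ j p.1)) * (φ i p.2 * conj (φ j p.2)))) (μ.prod ν) := by
    intro i hi j hj
    exact ((hint μ hμ i hi j hj).mul_prod (hint ν hν i hi j hj)).const_mul _
  have hpt : ∀ p : ℝ × ℝ, (((‖∑ i ∈ s, a i * (φ i p.1 * φ i p.2)‖ ^ 2 : ℝ)) : ℂ) =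
      ∑ i ∈ s, ∑ j ∈ s, a i * conj (a j) * ((φ i p.1 * conj (φ j p.1)) * (φ i p.2 * conj (φ j p.2))) := by
    intro p
    rw [Complex.ofReal_pow, ← Complex.mul_conj', map_sum, Finset.sum_mul_sum]
    refine Finset.sum_congr rfl fun i _ => Finset.sum_congr rfl fun j _ => ?_
    rw [map_mul, map_mul]
    ring
  have e : ∫ p : ℝ × ℝ, (((‖∑ i ∈ s, a i * (φ i p.1 * φ i p.2)‖ ^ 2 : ℝ)) : ℂ) ∂(μ.prod ν) =
      ∑ i ∈ s, ∑ j ∈ s, a i * conj (a j) * ((∫ u, φ i u * conj (φ j u) ∂μ) * ∫ u, φ i u * conj (φ j u) ∂ν) := by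
    rw [integral_congr_ae (Filter.Eventually.of_forall hpt)]
    rw [integral_finsetSum s fun i hi => integrable_finsetSum s fun j hj => hprod i hi j hj]
    refine Finset.sum_congr rfl fun i hi => ?_
    rw [integral_finsetSum s fun j hj => hprod i hi j hj]
    refine Finset.sum_congr rfl fun j hj => ?_
    rw [integral_const_mul]
    congr 1
    exact integral_prod_mul (fun u => φ i u * conj (φ j u)) (fun u => φ i u * conj (φ j u))
  rw [← e, integral_complex_ofReal, Complex.ofReal_re]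
  exact integral_nonneg fun p => sq_nonneg _

/-- the functions `F_s` -/
def QBM_F (X t u : ℝ) : ℂ := ee (t * mm X u) * (md X u : ℂ)

theorem QBM_F_meas (X t : ℝ) : Measurable (QBM_F X t) := by
  unfold QBM_F ee mm md
  fun_prop

theorem QBM_ee (x : ℝ) : ‖ee x‖ = 1 := by
  unfold ee
  exact Complex.norm_exp_ofReal_mul_I x

theorem QBM_F_le {X t u : ℝ} (hX : |X| ≤ 1 / 16) (hu : u ∈ Icc (-2 : ℝ) 2) : ‖QBM_F X t u‖ ≤ 2 := by
  unfold QBM_F
  rw [norm_mul, QBM_ee, one_mul, Complex.norm_real, Real.norm_eq_abs]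
  unfold md
  obtain ⟨h1, h2⟩ := abs_le.1 hX
  have h3 : 7 / 8 ≤ 1 - X * u := by nlinarith [hu.1, hu.2]
  have h4 : 0 < (1 - X * u) ^ 2 := by positivity
  rw [abs_of_nonneg (by positivity), div_le_iff₀ h4]
  nlinarith

theorem QBM_ip (X t X' t' x y : ℝ) : ipj X t X' t' x y = ∫ u in Icc x y, QBM_F X t u * conj (QBM_F X' t' u) := by
  unfold ipj
  refine integral_congr_ae (Filter.Eventually.of_forall fun u => ?_)
  unfold QBM_F
  simp only
  have h1 : ee (t * mm X u - t' * mm X' u) = ee (t * mm X u) * conj (ee (t' * mm X' u)) := by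
    unfold ee
    rw [← Complex.exp_conj, ← Complex.exp_add]
    congr 1
    rw [map_mul, Complex.conj_ofReal, Complex.conj_I]
    push_cast
    ring
  rw [h1, map_mul, Complex.conj_ofReal]
  push_cast
  ring

theorem QBM_ip_symm (X t X' t' x y : ℝ) : ipj X' t' X t x y = conj (ipj X t X' t' x y) := by
  rw [QBM_ip, QBM_ip, ← integral_conj]
  refine integral_congr_ae (Filter.Eventually.of_forall fun u => ?_)
  simp only [map_mul, Complex.conj_conj]
  ring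

theorem QBM_gs_symm (X t X' t' : ℝ) (n : ℕ) : gs X' t' X t n = gs X t X' t' n := by
  unfold gs
  refine Finset.sum_congr rfl fun z _ => ?_
  rw [QBM_ip_symm X t, QBM_ip_symm X t, RCLike.norm_conj, RCLike.norm_conj]

theorem QBM_J {n k : ℕ} (hk : k < 2 ^ n) : Icc (xk n k) (xk n (k + 1)) ⊆ Icc (-2 : ℝ) 2 := by
  have h2 : (0 : ℝ) < 2 ^ n := by positivity
  refine Icc_subset_Icc ?_ ?_
  · unfold xk
    have : (0 : ℝ) ≤ 4 * (k : ℝ) / 2 ^ n := by positivity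
    linarith
  · unfold xk
    have h3 : ((k + 1 : ℕ) : ℝ) ≤ 2 ^ n := by exact_mod_cast hk
    have h4 : 4 * (((k + 1 : ℕ) : ℝ)) / 2 ^ n ≤ 4 := by
      rw [div_le_iff₀ h2]
      linarith
    push_cast at h4 ⊢
    linarith

open Classical in
/-- the indicator function of `U` -/
def QBM_c (U : Set ℝ) (u : ℝ) : ℂ := U.indicator (fun _ => (1 : ℂ)) u

theorem QBM_c_meas {U : Set ℝ} (hU : MeasurableSet U) : Measurable (QBM_c U) :=
  measurable_const.indicator hU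

theorem QBM_c_le (U : Set ℝ) (u : ℝ) : ‖QBM_c U u‖ ≤ 2 := by
  unfold QBM_c
  by_cases h : u ∈ U
  · rw [indicator_of_mem h, norm_one]
    norm_num
  · rw [indicator_of_notMem h, norm_zero]
    norm_num

theorem QBM_cc {U : Set ℝ} (hU : MeasurableSet U) (J : Set ℝ) :
    ∫ u in J, QBM_c U u * conj (QBM_c U u) = (volume.real (U ∩ J) : ℂ) := by
  have h1 : ∀ u, QBM_c U u * conj (QBM_c U u) = U.indicator (fun _ => (1 : ℂ)) u := by
    intro u
    unfold QBM_c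
    by_cases h : u ∈ U
    · rw [indicator_of_mem h, map_one, mul_one]
    · rw [indicator_of_notMem h, map_zero, mul_zero]
  rw [integral_congr_ae (Filter.Eventually.of_forall h1), integral_indicator_const _ hU, measureReal_restrict_apply hU]
  simp

theorem QBM_kj {U : Set ℝ} (hU : MeasurableSet U) (X t : ℝ) (n k : ℕ) :
    ∫ u in Icc (xk n k) (xk n (k + 1)), QBM_c U u * QBM_F X t u = kj U X t n k := by
  have h1 : ∀ u, QBM_c U u * QBM_F X t u = U.indicator (QBM_F X t) u := by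
    intro u
    unfold QBM_c
    by_cases h : u ∈ U
    · rw [indicator_of_mem h, indicator_of_mem h, one_mul]
    · rw [indicator_of_notMem h, indicator_of_notMem h, zero_mul]
  rw [integral_congr_ae (Filter.Eventually.of_forall h1), integral_indicator hU, Measure.restrict_restrict hU]
  rfl

/-- the form of the inequality for one pair of intervals -/
theorem QBM_one {U : Set ℝ} (hU : MeasurableSet U) (S : Finset (ℝ × ℝ)) (hS : ∀ s ∈ S, |s.1| ≤ 1 / 16) (b : ℝ × ℝ → ℂ) (c : ℝ)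
    (n : ℕ) (z : ℕ × ℕ) (h1 : z.1 < 2 ^ n) (h2 : z.2 < 2 ^ n) :
    0 ≤ volume.real (U ∩ Icc (xk n z.1) (xk n (z.1 + 1))) * volume.real (U ∩ Icc (xk n z.2) (xk n (z.2 + 1))) -
      2 * c * (∑ s ∈ S, b s * (kj U s.1 s.2 n z.1 * kj U s.1 s.2 n z.2)).re +
      c ^ 2 * (∑ s ∈ S, ∑ s' ∈ S, b s * conj (b s') * (ipj s.1 s.2 s'.1 s'.2 (xk n z.1) (xk n (z.1 + 1)) *
        ipj s.1 s.2 s'.1 s'.2 (xk n z.2) (xk n (z.2 + 1)))).re := by
  classical
  obtain ⟨φ, hφ⟩ : ∃ φ : Option (ℝ × ℝ) → ℝ → ℂ, φ = fun i => match i with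
    | none => QBM_c U
    | some s => fun u => conj (QBM_F s.1 s.2 u) := ⟨_, rfl⟩
  obtain ⟨a, ha⟩ : ∃ a : Option (ℝ × ℝ) → ℂ, a = fun i => match i with
    | none => 1
    | some s => - (c : ℂ) * conj (b s) := ⟨_, rfl⟩
  have hφn : φ none = QBM_c U := by rw [hφ]
  have hφs : ∀ s, φ (some s) = fun u => conj (QBM_F s.1 s.2 u) := fun s => by rw [hφ]
  have han : a none = 1 := by rw [ha]
  have has : ∀ s, a (some s) = - (c : ℂ) * conj (b s) := fun s => by rw [ha]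
  have hmeas : ∀ i ∈ Finset.insertNone S, Measurable (φ i) := by
    intro i _
    cases i with
    | none => rw [hφn]; exact QBM_c_meas hU
    | some s => rw [hφs]; exact Complex.continuous_conj.measurable.comp (QBM_F_meas s.1 s.2)
  have hbd : ∀ k : ℕ, k < 2 ^ n → ∀ i ∈ Finset.insertNone S, ∀ᵐ u ∂(volume.restrict (Icc (xk n k) (xk n (k + 1)))), ‖φ i u‖ ≤ 2 := by
    intro k hk i hi
    rw [ae_restrict_iff' measurableSet_Icc]
    refine Filter.Eventually.of_forall fun u hu => ?_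
    cases i with
    | none => rw [hφn]; exact QBM_c_le U u
    | some s =>
      rw [hφs]
      simp only [RCLike.norm_conj]
      exact QBM_F_le (hS s (by simpa using hi)) (QBM_J hk hu)
  have key := QBM_pos (volume.restrict (Icc (xk n z.1) (xk n (z.1 + 1)))) (volume.restrict (Icc (xk n z.2) (xk n (z.2 + 1))))
    (Finset.insertNone S) φ a 2 hmeas (hbd z.1 h1) (hbd z.2 h2)
  -- the entries
  have e1 : ∀ k : ℕ, ∫ u in Icc (xk n k) (xk n (k + 1)), φ none u * conj (φ none u) = (volume.real (U ∩ Icc (xk n k) (xk n (k + 1))) : ℂ) := by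
    intro k
    rw [hφn]
    exact QBM_cc hU _
  have e2 : ∀ (k : ℕ) (s : ℝ × ℝ), ∫ u in Icc (xk n k) (xk n (k + 1)), φ none u * conj (φ (some s) u) = kj U s.1 s.2 n k := by
    intro k s
    rw [hφn, hφs, ← QBM_kj hU]
    simp only [Complex.conj_conj]
  have e3 : ∀ (k : ℕ) (s : ℝ × ℝ), ∫ u in Icc (xk n k) (xk n (k + 1)), φ (some s) u * conj (φ none u) = conj (kj U s.1 s.2 n k) := by
    intro k s
    rw [← e2 k s, ← integral_conj]
    refine integral_congr_ae (Filter.Eventually.of_forall fun u => ?_)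
    simp only [map_mul, Complex.conj_conj]
    ring
  have e4 : ∀ (k : ℕ) (s s' : ℝ × ℝ), ∫ u in Icc (xk n k) (xk n (k + 1)), φ (some s) u * conj (φ (some s') u) =
      conj (ipj s.1 s.2 s'.1 s'.2 (xk n k) (xk n (k + 1))) := by
    intro k s s'
    rw [hφs, hφs, QBM_ip, ← integral_conj]
    refine integral_congr_ae (Filter.Eventually.of_forall fun u => ?_)
    simp only [map_mul, Complex.conj_conj]
  rw [Finset.sum_insertNone] at key
  simp only [Finset.sum_insertNone] at key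
  rw [e1, e1] at key
  simp only [e2, e3, e4, han, has] at key
  have f1 : ∑ x ∈ S, (1 : ℂ) * conj (-(c : ℂ) * conj (b x)) * (kj U x.1 x.2 n z.1 * kj U x.1 x.2 n z.2) =
      -(c : ℂ) * ∑ s ∈ S, b s * (kj U s.1 s.2 n z.1 * kj U s.1 s.2 n z.2) := by
    rw [Finset.mul_sum]
    refine Finset.sum_congr rfl fun s _ => ?_
    rw [map_mul, map_neg, Complex.conj_ofReal, Complex.conj_conj]
    ring
  have f2 : ∑ x ∈ S, (-(c : ℂ) * conj (b x) * conj 1 * (conj (kj U x.1 x.2 n z.1) * conj (kj U x.1 x.2 n z.2)) +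
      ∑ x' ∈ S, -(c : ℂ) * conj (b x) * conj (-(c : ℂ) * conj (b x')) * (conj (ipj x.1 x.2 x'.1 x'.2 (xk n z.1) (xk n (z.1 + 1))) *
        conj (ipj x.1 x.2 x'.1 x'.2 (xk n z.2) (xk n (z.2 + 1))))) =
      -(c : ℂ) * conj (∑ s ∈ S, b s * (kj U s.1 s.2 n z.1 * kj U s.1 s.2 n z.2)) +
      (c : ℂ) ^ 2 * conj (∑ s ∈ S, ∑ s' ∈ S, b s * conj (b s') * (ipj s.1 s.2 s'.1 s'.2 (xk n z.1) (xk n (z.1 + 1)) *
        ipj s.1 s.2 s'.1 s'.2 (xk n z.2) (xk n (z.2 + 1)))) := by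
    rw [Finset.sum_add_distrib, map_sum, map_sum, Finset.mul_sum, Finset.mul_sum]
    congr 1
    · refine Finset.sum_congr rfl fun s _ => ?_
      simp only [map_mul, map_one]
      ring
    · refine Finset.sum_congr rfl fun s _ => ?_
      rw [map_sum, Finset.mul_sum]
      refine Finset.sum_congr rfl fun s' _ => ?_
      simp only [map_mul, map_neg, Complex.conj_ofReal, Complex.conj_conj]
      ring
  rw [f1, f2] at key
  simp only [map_one, one_mul, mul_one, Complex.add_re, Complex.mul_re, Complex.neg_re, Complex.neg_im, Complex.ofReal_re,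
    Complex.ofReal_im, Complex.conj_re, Complex.conj_im, neg_zero, mul_zero, zero_mul, sub_zero] at key
  have f3 : ((c : ℂ) ^ 2).re = c ^ 2 ∧ ((c : ℂ) ^ 2).im = 0 := by
    rw [← Complex.ofReal_pow]
    exact ⟨Complex.ofReal_re _, Complex.ofReal_im _⟩
  rw [f3.1, f3.2] at key
  linarith

/-- **Row QBM** -/
theorem QBM_proof : QBM_stmt := by
  classical
  intro U S n Q hU _ hS hQ hrow
  have hPR : ∀ z ∈ PR n, z.1 < 2 ^ n ∧ z.2 < 2 ^ n := by
    intro z hz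
    have h1 := (Finset.mem_filter.1 hz).1
    rw [Finset.mem_product, Finset.mem_range, Finset.mem_range] at h1
    exact h1
  obtain ⟨w, hw⟩ : ∃ w : ℝ × ℝ → ℂ, w = fun s => ∑ z ∈ PR n, kj U s.1 s.2 n z.1 * kj U s.1 s.2 n z.2 := ⟨_, rfl⟩
  obtain ⟨A, hA⟩ : ∃ A : ℝ, A = ∑ z ∈ PR n, volume.real (U ∩ Icc (xk n z.1) (xk n (z.1 + 1))) * volume.real (U ∩ Icc (xk n z.2) (xk n (z.2 + 1))) := ⟨_, rfl⟩
  obtain ⟨Z, hZ⟩ : ∃ Z : ℝ, Z = ∑ s ∈ S, ‖w s‖ ^ 2 := ⟨_, rfl⟩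
  have hZ0 : 0 ≤ Z := by
    rw [hZ]
    exact Finset.sum_nonneg fun s _ => sq_nonneg _
  have hA0 : 0 ≤ A := by
    rw [hA]
    exact Finset.sum_nonneg fun z _ => mul_nonneg measureReal_nonneg measureReal_nonneg
  have hgoal : ∑ s ∈ S, ‖∑ z ∈ PR n, kj U s.1 s.2 n z.1 * kj U s.1 s.2 n z.2‖ ^ 2 = Z := by
    rw [hZ, hw]
  rw [hgoal, ← hA]
  -- the inequality for all real numbers `c`
  have hc : ∀ c : ℝ, 0 ≤ A - 2 * c * Z + c ^ 2 * (Q * Z) := by
    intro c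
    have h1 : 0 ≤ ∑ z ∈ PR n, (volume.real (U ∩ Icc (xk n z.1) (xk n (z.1 + 1))) * volume.real (U ∩ Icc (xk n z.2) (xk n (z.2 + 1))) -
      2 * c * (∑ s ∈ S, conj (w s) * (kj U s.1 s.2 n z.1 * kj U s.1 s.2 n z.2)).re +
      c ^ 2 * (∑ s ∈ S, ∑ s' ∈ S, conj (w s) * conj (conj (w s')) * (ipj s.1 s.2 s'.1 s'.2 (xk n z.1) (xk n (z.1 + 1)) *
        ipj s.1 s.2 s'.1 s'.2 (xk n z.2) (xk n (z.2 + 1)))).re) :=
      Finset.sum_nonneg fun z hz => QBM_one hU S hS (fun s => conj (w s)) c n z (hPR z hz).1 (hPR z hz).2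
    rw [Finset.sum_add_distrib, Finset.sum_sub_distrib, ← hA, ← Finset.mul_sum, ← Finset.mul_sum, ← Complex.re_sum, ← Complex.re_sum] at h1
    have h2 : ∑ z ∈ PR n, ∑ s ∈ S, conj (w s) * (kj U s.1 s.2 n z.1 * kj U s.1 s.2 n z.2) = ((Z : ℝ) : ℂ) := by
      rw [Finset.sum_comm, hZ]
      push_cast
      refine Finset.sum_congr rfl fun s _ => ?_
      rw [← Finset.mul_sum]
      have h3 : ∑ z ∈ PR n, kj U s.1 s.2 n z.1 * kj U s.1 s.2 n z.2 = w s := by rw [hw]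
      rw [h3, ← Complex.mul_conj', mul_comm]
    rw [h2, Complex.ofReal_re] at h1
    have h4 : (∑ z ∈ PR n, ∑ s ∈ S, ∑ s' ∈ S, conj (w s) * conj (conj (w s')) * (ipj s.1 s.2 s'.1 s'.2 (xk n z.1) (xk n (z.1 + 1)) *
        ipj s.1 s.2 s'.1 s'.2 (xk n z.2) (xk n (z.2 + 1)))).re ≤ Q * Z := by
      refine (Complex.re_le_norm _).trans ?_
      have h5 : ‖∑ z ∈ PR n, ∑ s ∈ S, ∑ s' ∈ S, conj (w s) * conj (conj (w s')) * (ipj s.1 s.2 s'.1 s'.2 (xk n z.1) (xk n (z.1 + 1)) *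
          ipj s.1 s.2 s'.1 s'.2 (xk n z.2) (xk n (z.2 + 1)))‖ ≤
          ∑ z ∈ PR n, ∑ s ∈ S, ∑ s' ∈ S, ‖w s‖ * ‖w s'‖ * (‖ipj s.1 s.2 s'.1 s'.2 (xk n z.1) (xk n (z.1 + 1))‖ *
          ‖ipj s.1 s.2 s'.1 s'.2 (xk n z.2) (xk n (z.2 + 1))‖) := by
        refine (norm_sum_le _ _).trans (Finset.sum_le_sum fun z _ => ?_)
        refine (norm_sum_le _ _).trans (Finset.sum_le_sum fun s _ => ?_)
        refine (norm_sum_le _ _).trans (Finset.sum_le_sum fun s' _ => ?_)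
        rw [norm_mul, norm_mul, norm_mul, RCLike.norm_conj, RCLike.norm_conj, RCLike.norm_conj]
      refine h5.trans ?_
      have h6 : ∑ z ∈ PR n, ∑ s ∈ S, ∑ s' ∈ S, ‖w s‖ * ‖w s'‖ * (‖ipj s.1 s.2 s'.1 s'.2 (xk n z.1) (xk n (z.1 + 1))‖ *
          ‖ipj s.1 s.2 s'.1 s'.2 (xk n z.2) (xk n (z.2 + 1))‖) = ∑ s ∈ S, ∑ s' ∈ S, ‖w s‖ * ‖w s'‖ * gs s.1 s.2 s'.1 s'.2 n := by
        rw [Finset.sum_comm]
        refine Finset.sum_congr rfl fun s _ => ?_
        rw [Finset.sum_comm]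
        refine Finset.sum_congr rfl fun s' _ => ?_
        rw [← Finset.mul_sum]
        rfl
      rw [h6]
      have hg0 : ∀ s s' : ℝ × ℝ, 0 ≤ gs s.1 s.2 s'.1 s'.2 n := fun s s' =>
        Finset.sum_nonneg fun z _ => mul_nonneg (norm_nonneg _) (norm_nonneg _)
      have h7 : ∑ s ∈ S, ∑ s' ∈ S, ‖w s‖ * ‖w s'‖ * gs s.1 s.2 s'.1 s'.2 n ≤
          ∑ s ∈ S, ∑ s' ∈ S, (‖w s‖ ^ 2 / 2 * gs s.1 s.2 s'.1 s'.2 n + ‖w s'‖ ^ 2 / 2 * gs s'.1 s'.2 s.1 s.2 n) := by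
        refine Finset.sum_le_sum fun s _ => Finset.sum_le_sum fun s' _ => ?_
        rw [QBM_gs_symm s.1 s.2 s'.1 s'.2, ← add_mul]
        refine mul_le_mul_of_nonneg_right ?_ (hg0 s s')
        nlinarith [sq_nonneg (‖w s‖ - ‖w s'‖)]
      refine h7.trans ?_
      have h8 : ∑ s ∈ S, ∑ s' ∈ S, (‖w s‖ ^ 2 / 2 * gs s.1 s.2 s'.1 s'.2 n + ‖w s'‖ ^ 2 / 2 * gs s'.1 s'.2 s.1 s.2 n) =
          ∑ s ∈ S, ‖w s‖ ^ 2 * ∑ s' ∈ S, gs s.1 s.2 s'.1 s'.2 n := by
        simp only [Finset.sum_add_distrib]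
        rw [Finset.sum_comm (f := fun (s s' : ℝ × ℝ) => ‖w s'‖ ^ 2 / 2 * gs s'.1 s'.2 s.1 s.2 n), ← Finset.sum_add_distrib]
        refine Finset.sum_congr rfl fun s _ => ?_
        rw [← Finset.mul_sum]
        ring
      rw [h8, hZ, Finset.mul_sum]
      refine Finset.sum_le_sum fun s hs => ?_
      rw [mul_comm Q]
      exact mul_le_mul_of_nonneg_left (hrow s hs) (sq_nonneg _)
    have h9 := mul_le_mul_of_nonneg_left h4 (sq_nonneg c)
    linarith
  -- choice of `c`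
  rcases eq_or_lt_of_le hZ0 with h0 | hpos
  · rw [← h0]
    exact mul_nonneg hQ hA0
  rcases eq_or_lt_of_le hQ with hq | hq
  · exfalso
    have h1 := hc ((A + 1) / Z)
    rw [← hq] at h1
    have h2 : (A + 1) / Z * Z = A + 1 := div_mul_cancel₀ _ hpos.ne'
    nlinarith
  · have h1 := hc (1 / Q)
    have h2 : A - 2 * (1 / Q) * Z + (1 / Q) ^ 2 * (Q * Z) = A - Z / Q := by
      field_simp
      ring
    rw [h2] at h1
    have h3 : Z / Q ≤ A := by linarith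
    rw [div_le_iff₀ hq] at h3
    linarith

end

end Pool.Agent.LP
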